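import Pool.Agent.W290.LG.Stm
import Pool.Agent.H881R2.Mat.PolyInst

/-! Project LG, part D: the disjunction of a variable system and a fixed system. -/

set_option autoImplicit false

namespace Pool.Agent.W125.LG

open Pool.Agent Pool.Agent.NPC Pool.Agent.H881R2.Mat Pool.Agent.W290.LG

/-- a constraint guarded by the variable `z` -/
def gd (z : ℕ) (r : ℕ → ℕ) (s t : ℕ) : ER.Con → List ER.Con
  | .one i => [.mul z (r i) z]
  | .add i j k => [.add (r i) (r j) s, .mul z s t, .mul z (r k) t]
  | .mul i j k => [.mul (r i) (r j) s, .mul z s t, .mul z (r k) t]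

/-- the guard of the variable system, through codes -/
def gS (c : ER.Con) (g : ℕ) : List ER.Con :=
  if c.code.1 = 0 then [.mul 3 (4 * c.code.2.1) 3]
  else if c.code.1 = 1 then [.add (4 * c.code.2.1) (4 * c.code.2.2.1) (4 * g + 1),
    .mul 3 (4 * g + 1) (4 * g + 2), .mul 3 (4 * c.code.2.2.2) (4 * g + 2)]
  else [.mul (4 * c.code.2.1) (4 * c.code.2.2.1) (4 * g + 1),
    .mul 3 (4 * g + 1) (4 * g + 2), .mul 3 (4 * c.code.2.2.2) (4 * g + 2)]

theorem gS_eq (c : ER.Con) (g : ℕ) : gS c g = gd 3 (fun i => 4 * i) (4 * g + 1) (4 * g + 2) c := by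
  cases c <;> simp [gS, gd, ER.Con.code]

/-- the fixed part -/
def fx (T : List ER.Con) : List ER.Con :=
  T.zipIdx.flatMap (fun q => gd 7 (fun i => 4 * (3 * i + 3) + 3) (4 * (3 * q.2 + 4) + 3)
    (4 * (3 * q.2 + 5) + 3) q.1) ++ [.add 3 7 11, .one 11]

/-- the disjunction -/
def fD (T S : List ER.Con) : List ER.Con := S.zipIdx.flatMap (fun q => gS q.1 q.2) ++ fx T

section poly

variable {α : Type} [TEnc α]

theorem poly_gS {c : α → ER.Con} {g : α → ℕ} (hc : NPC.Poly c) (hg : NPC.Poly g) :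
    NPC.Poly (fun a => gS (c a) (g a)) := by
  have h : NPC.Poly (fun a => (c a).code) := ER.poly_con_code hc
  unfold gS
  have hm : ∀ {x y z : α → ℕ}, NPC.Poly x → NPC.Poly y → NPC.Poly z →
      NPC.Poly (fun a => ER.Con.mul (x a) (y a) (z a)) := fun hx hy hz => ER.poly_con_mul hx hy hz
  have ha : ∀ {x y z : α → ℕ}, NPC.Poly x → NPC.Poly y → NPC.Poly z →
      NPC.Poly (fun a => ER.Con.add (x a) (y a) (z a)) := fun hx hy hz => ER.poly_con_add hx hy hz
  fun_prop

attribute [local fun_prop] poly_gS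

theorem poly_fD (T : List ER.Con) : NPC.Poly (fD T) := by
  unfold fD
  fun_prop

end poly

section sem

variable {K : Type} [Field K]

theorem gd_sound {v : ℕ → K} {z : ℕ} {r : ℕ → ℕ} {s t : ℕ} {c : ER.Con} (hz : v z ≠ 0)
    (h : ∀ d ∈ gd z r s t c, HoldsK v d) : HoldsK (fun i => v (r i)) c := by
  cases c with
  | one i =>
    have h1 : v z * v (r i) = v z := h (.mul z (r i) z) (by simp [gd])
    show v (r i) = 1
    exact mul_left_cancel₀ hz (by rw [h1, mul_one])
  | add i j k =>
    have h1 : v (r i) + v (r j) = v s := h (.add (r i) (r j) s) (by simp [gd])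
    have h2 : v z * v s = v t := h (.mul z s t) (by simp [gd])
    have h3 : v z * v (r k) = v t := h (.mul z (r k) t) (by simp [gd])
    show v (r i) + v (r j) = v (r k)
    rw [h1]
    exact mul_left_cancel₀ hz (by rw [h2, h3])
  | mul i j k =>
    have h1 : v (r i) * v (r j) = v s := h (.mul (r i) (r j) s) (by simp [gd])
    have h2 : v z * v s = v t := h (.mul z s t) (by simp [gd])
    have h3 : v z * v (r k) = v t := h (.mul z (r k) t) (by simp [gd])
    show v (r i) * v (r j) = v (r k)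
    rw [h1]
    exact mul_left_cancel₀ hz (by rw [h2, h3])

/-- the value of the auxiliary variable -/
def cv (w : ℕ → K) : ER.Con → K
  | .one _ => 0
  | .add i j _ => w i + w j
  | .mul i j _ => w i * w j

theorem gd_complete {v : ℕ → K} {z : ℕ} {r : ℕ → ℕ} {s t : ℕ} {c : ER.Con}
    (hz : v z = 0 ∨ HoldsK (fun i => v (r i)) c) (hs : v s = cv (fun i => v (r i)) c)
    (ht : v t = v z * cv (fun i => v (r i)) c) : ∀ d ∈ gd z r s t c, HoldsK v d := by
  cases c with
  | one i =>
    intro d hd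
    simp only [gd, List.mem_singleton] at hd
    subst hd
    show v z * v (r i) = v z
    rcases hz with hz | hz
    · rw [hz, zero_mul]
    · have h1 : v (r i) = 1 := hz
      rw [h1, mul_one]
  | add i j k =>
    intro d hd
    simp only [gd, List.mem_cons, List.not_mem_nil, or_false] at hd
    simp only [cv] at hs ht
    rcases hd with rfl | rfl | rfl
    · exact hs.symm
    · show v z * v s = v t
      rw [hs, ht]
    · show v z * v (r k) = v t
      rw [ht]
      rcases hz with hz | hz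
      · rw [hz, zero_mul, zero_mul]
      · have h1 : v (r i) + v (r j) = v (r k) := hz
        rw [h1]
  | mul i j k =>
    intro d hd
    simp only [gd, List.mem_cons, List.not_mem_nil, or_false] at hd
    simp only [cv] at hs ht
    rcases hd with rfl | rfl | rfl
    · exact hs.symm
    · show v z * v s = v t
      rw [hs, ht]
    · show v z * v (r k) = v t
      rw [ht]
      rcases hz with hz | hz
      · rw [hz, zero_mul, zero_mul]
      · have h1 : v (r i) * v (r j) = v (r k) := hz
        rw [h1]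

/-- value of the auxiliary variable with number `g` -/
def sv (S : List ER.Con) (w : ℕ → K) (g : ℕ) : K :=
  match S[g]? with
  | none => 0
  | some c => cv w c

theorem sv_eq {S : List ER.Con} {w : ℕ → K} {g : ℕ} {c : ER.Con} (h : S[g]? = some c) :
    sv S w g = cv w c := by
  simp [sv, h]

/-- the assignment -/
def asg (S T : List ER.Con) (wS wT : ℕ → K) (x y : K) (n : ℕ) : K :=
  if n % 4 = 0 then wS (n / 4)
  else if n % 4 = 1 then sv S wS (n / 4)
  else if n % 4 = 2 then x * sv S wS (n / 4)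
  else if n = 3 then x
  else if n = 7 then y
  else if n = 11 then 1
  else if n / 4 % 3 = 0 then wT (n / 4 / 3 - 1)
  else if n / 4 % 3 = 1 then sv T wT (n / 4 / 3 - 1)
  else y * sv T wT (n / 4 / 3 - 1)

variable (S T : List ER.Con) (wS wT : ℕ → K) (x y : K)

theorem asg_v (i : ℕ) : asg S T wS wT x y (4 * i) = wS i := by
  have h1 : 4 * i % 4 = 0 := by omega
  have h2 : 4 * i / 4 = i := by omega
  simp [asg, h1, h2]

theorem asg_s (g : ℕ) : asg S T wS wT x y (4 * g + 1) = sv S wS g := by
  have h1 : (4 * g + 1) % 4 = 1 := by omega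
  have h2 : (4 * g + 1) / 4 = g := by omega
  simp [asg, h1, h2]

theorem asg_t (g : ℕ) : asg S T wS wT x y (4 * g + 2) = x * sv S wS g := by
  have h1 : (4 * g + 2) % 4 = 2 := by omega
  have h2 : (4 * g + 2) / 4 = g := by omega
  simp [asg, h1, h2]

theorem asg_z : asg S T wS wT x y 3 = x := by simp [asg]
theorem asg_z' : asg S T wS wT x y 7 = y := by simp [asg]
theorem asg_o : asg S T wS wT x y 11 = 1 := by simp [asg]

theorem asg_v' (i : ℕ) : asg S T wS wT x y (4 * (3 * i + 3) + 3) = wT i := by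
  have h1 : (4 * (3 * i + 3) + 3) % 4 = 3 := by omega
  have h2 : (4 * (3 * i + 3) + 3) / 4 = 3 * i + 3 := by omega
  have h3 : (3 * i + 3) % 3 = 0 := by omega
  have h4 : (3 * i + 3) / 3 - 1 = i := by omega
  have h5 : 4 * (3 * i + 3) + 3 ≠ 3 := by omega
  have h6 : 4 * (3 * i + 3) + 3 ≠ 7 := by omega
  have h7 : 4 * (3 * i + 3) + 3 ≠ 11 := by omega
  unfold asg
  rw [if_neg (by omega), if_neg (by omega), if_neg (by omega), if_neg h5, if_neg h6, if_neg h7,
    h2, if_pos h3, h4]

theorem asg_s' (g : ℕ) : asg S T wS wT x y (4 * (3 * g + 4) + 3) = sv T wT g := by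
  have h2 : (4 * (3 * g + 4) + 3) / 4 = 3 * g + 4 := by omega
  have h3 : (3 * g + 4) % 3 = 1 := by omega
  have h4 : (3 * g + 4) / 3 - 1 = g := by omega
  unfold asg
  rw [if_neg (by omega), if_neg (by omega), if_neg (by omega), if_neg (by omega),
    if_neg (by omega), if_neg (by omega), h2, if_neg (by omega), if_pos h3, h4]

theorem asg_t' (g : ℕ) : asg S T wS wT x y (4 * (3 * g + 5) + 3) = y * sv T wT g := by
  have h2 : (4 * (3 * g + 5) + 3) / 4 = 3 * g + 5 := by omega
  have h4 : (3 * g + 5) / 3 - 1 = g := by omega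
  unfold asg
  rw [if_neg (by omega), if_neg (by omega), if_neg (by omega), if_neg (by omega),
    if_neg (by omega), if_neg (by omega), h2, if_neg (by omega), if_neg (by omega), h4]

theorem sound {v : ℕ → K} (h : ∀ c ∈ fD T S, HoldsK v c) : KSat K S ∨ KSat K T := by
  have hadd : v 3 + v 7 = v 11 := h (.add 3 7 11) (by simp [fD, fx])
  have hone : v 11 = 1 := h (.one 11) (by simp [fD, fx])
  by_cases hz : v 3 = 0
  · right
    have hz' : v 7 ≠ 0 := by
      rw [hz, zero_add, hone] at hadd
      rw [hadd]; exact one_ne_zero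
    refine ⟨fun i => v (4 * (3 * i + 3) + 3), fun c hc => ?_⟩
    obtain ⟨g, hg⟩ := List.mem_iff_getElem?.1 hc
    have hm : (c, g) ∈ T.zipIdx := List.mk_mem_zipIdx_iff_getElem?.2 hg
    refine gd_sound (r := fun i => 4 * (3 * i + 3) + 3) (s := 4 * (3 * g + 4) + 3)
      (t := 4 * (3 * g + 5) + 3) hz' fun d hd => h d ?_
    unfold fD fx
    exact List.mem_append_right _ (List.mem_append_left _ (List.mem_flatMap.2 ⟨(c, g), hm, hd⟩))
  · left
    refine ⟨fun i => v (4 * i), fun c hc => ?_⟩
    obtain ⟨g, hg⟩ := List.mem_iff_getElem?.1 hc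
    have hm : (c, g) ∈ S.zipIdx := List.mk_mem_zipIdx_iff_getElem?.2 hg
    refine gd_sound (r := fun i => 4 * i) (s := 4 * g + 1) (t := 4 * g + 2) hz
      fun d hd => h d ?_
    unfold fD
    refine List.mem_append_left _ (List.mem_flatMap.2 ⟨(c, g), hm, ?_⟩)
    show d ∈ gS c g
    rw [gS_eq]; exact hd

theorem complete (hxy : x + y = 1) (hx : x = 0 ∨ ∀ c ∈ S, HoldsK wS c)
    (hy : y = 0 ∨ ∀ c ∈ T, HoldsK wT c) : ∀ c ∈ fD T S, HoldsK (asg S T wS wT x y) c := by
  intro d hd
  unfold fD fx at hd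
  rcases List.mem_append.1 hd with hd | hd
  · obtain ⟨⟨c, g⟩, hm, hd⟩ := List.mem_flatMap.1 hd
    have hg : S[g]? = some c := List.mk_mem_zipIdx_iff_getElem?.1 hm
    have hd' : d ∈ gd 3 (fun i => 4 * i) (4 * g + 1) (4 * g + 2) c := by
      rw [← gS_eq]; exact hd
    have e : (fun i => asg S T wS wT x y (4 * i)) = wS := funext fun i => asg_v S T wS wT x y i
    refine gd_complete (v := asg S T wS wT x y) (r := fun i => 4 * i) ?_ ?_ ?_ d hd'
    · rw [asg_z, e]
      rcases hx with hx | hx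
      · exact Or.inl hx
      · exact Or.inr (hx c (List.mem_of_getElem? hg))
    · rw [asg_s, e, sv_eq hg]
    · rw [asg_t, e, asg_z, sv_eq hg]
  rcases List.mem_append.1 hd with hd | hd
  · obtain ⟨⟨c, g⟩, hm, hd⟩ := List.mem_flatMap.1 hd
    have hg : T[g]? = some c := List.mk_mem_zipIdx_iff_getElem?.1 hm
    have e : (fun i => asg S T wS wT x y (4 * (3 * i + 3) + 3)) = wT :=
      funext fun i => asg_v' S T wS wT x y i
    refine gd_complete (v := asg S T wS wT x y) (r := fun i => 4 * (3 * i + 3) + 3) ?_ ?_ ?_ d hd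
    · rw [asg_z', e]
      rcases hy with hy | hy
      · exact Or.inl hy
      · exact Or.inr (hy c (List.mem_of_getElem? hg))
    · rw [asg_s', e, sv_eq hg]
    · rw [asg_t', e, asg_z', sv_eq hg]
  · simp only [List.mem_cons, List.not_mem_nil, or_false] at hd
    rcases hd with rfl | rfl
    · show asg S T wS wT x y 3 + asg S T wS wT x y 7 = asg S T wS wT x y 11
      rw [asg_z, asg_z', asg_o, hxy]
    · show asg S T wS wT x y 11 = 1
      exact asg_o S T wS wT x y

end sem

theorem t_D : Pool.Agent.W290.LG.S_D := by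
  intro T
  refine ⟨fD T, poly_fD T, fun K _ S => ⟨fun ⟨v, hv⟩ => sound S T hv, fun h => ?_⟩⟩
  rcases h with ⟨w, hw⟩ | ⟨w, hw⟩
  · exact ⟨asg S T w 0 1 0, complete S T w 0 1 0 (by simp) (Or.inr hw) (Or.inl rfl)⟩
  · exact ⟨asg S T 0 w 0 1, complete S T 0 w 0 1 (by simp) (Or.inl rfl) (Or.inr hw)⟩

end Pool.Agent.W125.LG
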